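import Pool.Agent.Helper96.SE.St

/-! Module E4 of project SE (MP_6090f9_nt): Kummer covers as an instance of the theorem of Stepanov and Bombieri. -/

set_option autoImplicit false

namespace Pool.Agent.Helper83.SE

open NumberField IsDedekindDomain Polynomial Filter Topology
open Pool.Agent.Helper96.SE Pool.Agent.Helper96.BC Pool.Agent.Helper95.TT Pool.Agent.Helper24.TF
open Pool.Agent.Helper95.WS
open Pool.Agent.Helper54.GT (Dat Pts PolyLE StCh)

noncomputable section

/-! ### The polynomial is irreducible -/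

private theorem not_pow (F k : Type) [Field F] [Fintype F] [Field k] [IsAlgClosed k] [Algebra F k]
    (n : ℕ) (f : F[X]) (h : NP n f) (g : k[X]) :
    g ^ n ≠ f.map (algebraMap F k) := by
  classical
  intro hg
  obtain ⟨P, f₁, a, hP, hPf, hna, hfe⟩ := h
  have hf1 : f₁ ≠ 0 := by
    rintro rfl
    exact hPf (dvd_zero P)
  have hsep : P.Separable := PerfectField.separable_of_irreducible hP
  have hcop : IsCoprime P f₁ := (hP.coprime_iff_not_dvd).mpr hPf
  have hdeg : (P.map (algebraMap F k)).degree ≠ 0 := by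
    rw [degree_map]
    exact hP.degree_pos.ne'
  obtain ⟨α, hα⟩ := IsAlgClosed.exists_root (P.map (algebraMap F k)) hdeg
  have hPk : P.map (algebraMap F k) ≠ 0 := (Polynomial.map_ne_zero_iff
    (algebraMap F k).injective).mpr hP.ne_zero
  have hfk : f₁.map (algebraMap F k) ≠ 0 := (Polynomial.map_ne_zero_iff
    (algebraMap F k).injective).mpr hf1
  have h1 : (P.map (algebraMap F k)).roots.count α = 1 := by
    refine Multiset.count_eq_one_of_mem (nodup_roots hsep.map) ?_
    rw [mem_roots hPk]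
    exact hα
  have h2 : (f₁.map (algebraMap F k)).roots.count α = 0 := by
    rw [Multiset.count_eq_zero, mem_roots hfk]
    intro h3
    obtain ⟨u, w, huw⟩ := hcop
    have h4 := congrArg (fun p => (p.map (algebraMap F k)).eval α) huw
    simp only [Polynomial.map_add, Polynomial.map_mul, eval_add, eval_mul, Polynomial.map_one,
      eval_one] at h4
    rw [hα.eq_zero, h3.eq_zero, mul_zero, mul_zero, add_zero] at h4
    exact zero_ne_one h4
  have h5 : (g ^ n).roots.count α = (f.map (algebraMap F k)).roots.count α := by rw [hg]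
  rw [roots_pow, Multiset.count_nsmul, hfe, Polynomial.map_mul, Polynomial.map_pow,
    roots_mul (mul_ne_zero (pow_ne_zero _ hPk) hfk), roots_pow, Multiset.count_add,
    Multiset.count_nsmul, h1, h2, mul_one, add_zero] at h5
  exact hna ⟨_, h5.symm⟩

private theorem irr (F k : Type) [Field F] [Fintype F] [Field k] [IsAlgClosed k] [Algebra F k]
    (n : ℕ) (hn : n.Prime) (f : F[X]) (h : NP n f) :
    Irreducible (X ^ n - C (f.map (algebraMap F k)) : k[X][X]) := by
  have hmon : (X ^ n - C (f.map (algebraMap F k)) : k[X][X]).Monic :=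
    monic_X_pow_sub_C _ hn.ne_zero
  rw [hmon.irreducible_iff_irreducible_map_fraction_map (K := FractionRing k[X])]
  rw [Polynomial.map_sub, Polynomial.map_pow, map_X, map_C]
  refine X_pow_sub_C_irreducible_of_prime hn fun b hb => ?_
  have hint : IsIntegral k[X] (b ^ n) := by
    rw [hb]
    exact isIntegral_algebraMap
  obtain ⟨g, hg⟩ := IsIntegrallyClosed.exists_algebraMap_eq_of_isIntegral_pow hn.pos hint
  refine not_pow F k n f h g ?_
  apply IsFractionRing.injective k[X] (FractionRing k[X])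
  rw [map_pow, hg, hb]

/-! ### The ring -/

/-- the coordinate ring of `y^n = g(x)` -/
private abbrev RR (k : Type) [Field k] (n : ℕ) (g : k[X]) : Type :=
  AdjoinRoot (X ^ n - C g : k[X][X])

section

variable {k : Type} [Field k] {n : ℕ} {g : k[X]}

private abbrev yy (k : Type) [Field k] (n : ℕ) (g : k[X]) : RR k n g :=
  AdjoinRoot.root (X ^ n - C g : k[X][X])

private theorem yy_pow : (yy k n g) ^ n = algebraMap k[X] (RR k n g) g := by
  have h1 := AdjoinRoot.eval₂_root (X ^ n - C g : k[X][X])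
  rw [eval₂_sub, eval₂_pow, eval₂_X, eval₂_C, sub_eq_zero] at h1
  exact h1

private def om (k : Type) [Field k] (n : ℕ) (g : k[X]) (hn : n ≠ 0) :
    Module.Basis (Fin n) k[X] (RR k n g) :=
  (AdjoinRoot.powerBasis' (monic_X_pow_sub_C g hn)).basis.reindex
    (finCongr (by rw [AdjoinRoot.powerBasis'_dim]; exact natDegree_X_pow_sub_C))

private theorem om_apply (hn : n ≠ 0) (i : Fin n) : om k n g hn i = (yy k n g) ^ (i : ℕ) := by
  rw [om, Module.Basis.reindex_apply, PowerBasis.basis_eq_pow, AdjoinRoot.powerBasis'_gen]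
  rfl

private theorem repr_smul_pow (hn : n ≠ 0) (p : k[X]) (m : ℕ) (hm : m < n) (l : Fin n) :
    (om k n g hn).repr (p • (yy k n g) ^ m) l = if m = l then p else 0 := by
  have h1 : (yy k n g) ^ m = om k n g hn ⟨m, hm⟩ := (om_apply hn ⟨m, hm⟩).symm
  rw [h1, map_smul, Module.Basis.repr_self, Finsupp.smul_apply, Finsupp.single_apply, smul_eq_mul,
    mul_ite, mul_one, mul_zero]
  congr 1
  rw [Fin.ext_iff]

/-- the substitution `y ↦ c y`, `c^n = 1` -/
private def sub1 (k : Type) [Field k] (n : ℕ) (g : k[X]) (c : k) (hc : c ^ n = 1) :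
    RR k n g →ₐ[k[X]] RR k n g :=
  AdjoinRoot.liftAlgHom (X ^ n - C g : k[X][X]) (Algebra.ofId k[X] (RR k n g))
    ((C c : k[X]) • yy k n g) (by
      rw [eval₂_sub, eval₂_pow, eval₂_X, eval₂_C, _root_.smul_pow, ← C_pow, hc, C_1, one_smul, yy_pow]
      exact sub_self _)

private theorem sub1_yy (c : k) (hc : c ^ n = 1) :
    sub1 k n g c hc (yy k n g) = (C c : k[X]) • yy k n g :=
  AdjoinRoot.liftAlgHom_root _ _ _ _

private theorem equiv_ext {e₁ e₂ : RR k n g ≃ₐ[k[X]] RR k n g}
    (h : e₁ (yy k n g) = e₂ (yy k n g)) : e₁ = e₂ := by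
  have h1 : (e₁ : RR k n g →ₐ[k[X]] RR k n g) = (e₂ : RR k n g →ₐ[k[X]] RR k n g) :=
    AdjoinRoot.algHom_ext h
  ext x
  exact DFunLike.congr_fun h1 x

private theorem sub1_comp (c d : k) (hc : c ^ n = 1) (hd : d ^ n = 1) (hcd : c * d = 1) :
    (sub1 k n g c hc).comp (sub1 k n g d hd) = AlgHom.id _ _ := by
  apply AdjoinRoot.algHom_ext
  rw [AlgHom.comp_apply]
  change sub1 k n g c hc (sub1 k n g d hd (yy k n g)) = yy k n g
  rw [sub1_yy, map_smul, sub1_yy, smul_smul, ← C_mul, mul_comm, hcd, C_1, one_smul]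

private def sub2 (k : Type) [Field k] (n : ℕ) (g : k[X]) (c d : k) (hc : c ^ n = 1)
    (hd : d ^ n = 1) (hcd : c * d = 1) : RR k n g ≃ₐ[k[X]] RR k n g :=
  AlgEquiv.ofAlgHom (sub1 k n g c hc) (sub1 k n g d hd) (sub1_comp c d hc hd hcd)
    (sub1_comp d c hd hc (by rw [mul_comm, hcd]))

private theorem sub2_yy (c d : k) (hc : c ^ n = 1) (hd : d ^ n = 1) (hcd : c * d = 1) :
    sub2 k n g c d hc hd hcd (yy k n g) = (C c : k[X]) • yy k n g :=
  sub1_yy c hc

end

section

variable {F k : Type} [Field F] [Field k] [Algebra F k] {n : ℕ} {g : k[X]}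

private theorem ru_pow (u : rootsOfUnity n F) : (algebraMap F k ((u : Fˣ) : F)) ^ n = 1 := by
  have h1 := (mem_rootsOfUnity n (u : Fˣ)).mp u.2
  have h2 : (((u : Fˣ) : F)) ^ n = 1 := by
    rw [← Units.val_pow_eq_pow_val, h1, Units.val_one]
  rw [← map_pow, h2, map_one]

private theorem ru_mul (u : rootsOfUnity n F) :
    algebraMap F k ((u : Fˣ) : F) * algebraMap F k (((u⁻¹ : rootsOfUnity n F) : Fˣ) : F) = 1 := by
  rw [← map_mul, ← Units.val_mul, ← Subgroup.coe_mul, mul_inv_cancel]
  simp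

private def ac (F k : Type) [Field F] [Field k] [Algebra F k] (n : ℕ) (g : k[X]) :
    rootsOfUnity n F →* (RR k n g ≃ₐ[k[X]] RR k n g) where
  toFun u := sub2 k n g _ _ (ru_pow u) (ru_pow u⁻¹) (ru_mul u)
  map_one' := by
    apply equiv_ext
    rw [sub2_yy]
    simp
  map_mul' u v := by
    apply equiv_ext
    rw [sub2_yy, AlgEquiv.mul_apply, sub2_yy, map_smul, sub2_yy, smul_smul, ← C_mul]
    congr 2
    rw [Subgroup.coe_mul, Units.val_mul, map_mul, mul_comm]

private theorem ac_yy (u : rootsOfUnity n F) :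
    ac F k n g u (yy k n g) = (C (algebraMap F k ((u : Fˣ) : F)) : k[X]) • yy k n g :=
  sub2_yy _ _ (ru_pow u) (ru_pow u⁻¹) (ru_mul u)

private theorem polyLE_C (c : ℕ) (a : F) : (C (algebraMap F k a) : k[X]) ∈ PolyLE F k c :=
  ⟨C a, by simp, by simp⟩

private theorem polyLE_ite (c : ℕ) (P : Prop) [Decidable P] (p : k[X]) (hp : p ∈ PolyLE F k c) :
    (if P then p else 0) ∈ PolyLE F k c := by
  split
  · exact hp
  · exact ⟨0, by simp, by simp⟩

private theorem dat (f : F[X]) (hn : n.Prime) [Fintype (rootsOfUnity n F)]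
    (hcard : Fintype.card (rootsOfUnity n F) = n) :
    Dat F (om k n (f.map (algebraMap F k)) hn.ne_zero) (ac F k n (f.map (algebraMap F k)))
      f.natDegree where
  mul i j l := by
    rw [om_apply, om_apply, ← pow_add]
    by_cases h : (i : ℕ) + j < n
    · rw [← one_smul k[X] (yy k n (f.map (algebraMap F k)) ^ ((i : ℕ) + j)),
        repr_smul_pow _ _ _ h]
      refine polyLE_ite _ _ _ ?_
      have h1 := polyLE_C (k := k) f.natDegree (1 : F)
      rwa [map_one, C_1] at h1
    · obtain ⟨m, hm⟩ := Nat.exists_eq_add_of_le (not_lt.mp h)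
      rw [hm, pow_add, yy_pow, ← Algebra.smul_def, repr_smul_pow _ _ _ (by omega)]
      exact polyLE_ite _ _ _ ⟨f, le_rfl, rfl⟩
  one l := by
    have h0 : (1 : RR k n (f.map (algebraMap F k))) =
        (1 : k[X]) • (yy k n (f.map (algebraMap F k))) ^ 0 := by rw [one_smul, pow_zero]
    rw [h0, repr_smul_pow _ _ _ hn.pos]
    refine polyLE_ite _ _ _ ?_
    have h1 := polyLE_C (k := k) f.natDegree (1 : F)
    rwa [map_one, C_1] at h1
  gal u i l := by
    rw [om_apply, map_pow, ac_yy, _root_.smul_pow, repr_smul_pow _ _ _ i.2, ← C_pow, ← map_pow]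
    exact polyLE_ite _ _ _ (polyLE_C _ _)
  inj := by
    intro u v huv
    have h1 := congrArg (fun e => (om k n (f.map (algebraMap F k)) hn.ne_zero).repr
      (e (yy k n (f.map (algebraMap F k)))) ⟨1, hn.one_lt⟩) huv
    simp only [ac_yy] at h1
    rw [← pow_one (yy k n (f.map (algebraMap F k))), repr_smul_pow _ _ _ hn.one_lt,
      repr_smul_pow _ _ _ hn.one_lt, if_pos rfl, if_pos rfl] at h1
    have h2 := (algebraMap F k).injective (C_injective h1)
    exact Subtype.ext (Units.ext h2)
  card := by rw [hcard, Fintype.card_fin]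

end

/-! ### Points -/

section

variable {k : Type} [Field k] {n : ℕ} {g : k[X]}

private theorem hom_poly (y : RR k n g →ₐ[k] k) (p : k[X]) :
    y (algebraMap k[X] (RR k n g) p) = p.eval (y (algebraMap k[X] (RR k n g) X)) := by
  have h1 : y.comp (IsScalarTower.toAlgHom k k[X] (RR k n g)) =
      aeval (y (algebraMap k[X] (RR k n g) X)) := by
    apply Polynomial.algHom_ext
    rw [aeval_X]
    rfl
  have h2 := DFunLike.congr_fun h1 p
  rw [coe_aeval_eq_eval] at h2
  exact h2

private theorem hom_ext' (hn : n ≠ 0) {y₁ y₂ : RR k n g →ₐ[k] k}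
    (h1 : y₁ (algebraMap k[X] (RR k n g) X) = y₂ (algebraMap k[X] (RR k n g) X))
    (h2 : y₁ (yy k n g) = y₂ (yy k n g)) : y₁ = y₂ := by
  refine DFunLike.ext _ _ fun x => ?_
  rw [← (om k n g hn).sum_repr x, map_sum, map_sum]
  refine Finset.sum_congr rfl fun i _ => ?_
  rw [om_apply, Algebra.smul_def, map_mul, map_mul, map_pow, map_pow, hom_poly y₁,
    hom_poly y₂ ((om k n g hn).repr x i), h1, h2]

private theorem exists_hom' (a b : k) (h : b ^ n = g.eval a) :
    ∃ y : RR k n g →ₐ[k] k, y (algebraMap k[X] (RR k n g) X) = a ∧ y (yy k n g) = b := by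
  have h0 : eval₂ ((aeval a : k[X] →ₐ[k] k) : k[X] →+* k) b (X ^ n - C g : k[X][X]) = 0 := by
    rw [eval₂_sub, eval₂_pow, eval₂_X, eval₂_C, h]
    change g.eval a - aeval a g = 0
    rw [coe_aeval_eq_eval, sub_self]
  refine ⟨AdjoinRoot.liftAlgHom (X ^ n - C g : k[X][X]) (aeval a : k[X] →ₐ[k] k) b h0, ?_, ?_⟩
  · have h1 := AdjoinRoot.liftAlgHom_of (X ^ n - C g : k[X][X]) (aeval a : k[X] →ₐ[k] k) b h0 X
    rw [aeval_X] at h1
    exact h1
  · exact AdjoinRoot.liftAlgHom_root _ _ _ _

end

section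

variable {F k : Type} [Field F] [Fintype F] [Field k] [Algebra F k] {n : ℕ}

/-- the pairs of coordinates of the points -/
private def ZZ (g : k[X]) (n Q : ℕ) (z : k) : Set (k × k) :=
  {p | p.2 ^ n = g.eval p.1 ∧ p.1 ^ Q = p.1 ∧ p.2 ^ Q = z * p.2}

private theorem pts_image (g : k[X]) (hn : n.Prime) (u : rootsOfUnity n F) (e : ℕ)
    [Fintype (rootsOfUnity n F)] :
    (fun y : RR k n g →ₐ[k] k => ((y (algebraMap k[X] (RR k n g) X), y (yy k n g)) : k × k)) ''
      (Pts F (om k n g hn.ne_zero) (ac F k n g) u e) =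
    ZZ g n (Fintype.card F ^ e) (algebraMap F k ((u : Fˣ) : F)) := by
  have hac : ∀ (y : RR k n g →ₐ[k] k) (i : Fin n), y (ac F k n g u (om k n g hn.ne_zero i)) =
      (algebraMap F k ((u : Fˣ) : F) * y (yy k n g)) ^ (i : ℕ) := by
    intro y i
    rw [om_apply, map_pow, map_pow, ac_yy, Algebra.smul_def, map_mul, hom_poly, eval_C]
  ext ⟨a, b⟩
  constructor
  · rintro ⟨y, ⟨hy1, hy2⟩, hy⟩
    obtain ⟨rfl, rfl⟩ := Prod.mk.inj hy
    refine ⟨?_, hy1, ?_⟩
    · change (y (yy k n g)) ^ n = g.eval (y (algebraMap k[X] (RR k n g) X))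
      rw [← hom_poly, ← map_pow, yy_pow]
    · have h1 := hy2 ⟨1, hn.one_lt⟩
      rw [hac, om_apply] at h1
      simpa using h1
  · rintro ⟨h1, h2, h3⟩
    obtain ⟨y, hya, hyb⟩ := exists_hom' (n := n) (g := g) a b h1
    refine ⟨y, ⟨?_, fun i => ?_⟩, Prod.ext hya hyb⟩
    · rw [hya]
      exact h2
    · rw [hac, om_apply, map_pow, hyb, ← pow_mul, mul_comm, pow_mul]
      simp only at h3
      rw [h3]

/-- number of `b` above a point -/
private theorem card_fib {k : Type} [Field k] {n : ℕ} [DecidableEq k] [IsAlgClosed k] (hn : n.Prime) {ζ₀ : k} (hζ : IsPrimitiveRoot ζ₀ n)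
    (Q : ℕ) (hQ : 1 < Q) (hd : n ∣ Q - 1) (z c : k) :
    Nat.card {b : k // b ^ n = c ∧ b ^ Q = z * b} =
      if c = 0 then 1 else if c ^ ((Q - 1) / n) = z then n else 0 := by
  obtain ⟨m, hm⟩ := hd
  have hdiv : (Q - 1) / n = m := by rw [hm]; exact Nat.mul_div_cancel_left m hn.pos
  rw [hdiv]
  have hQe : Q = n * m + 1 := by omega
  split_ifs with h0 h1
  · have : ∀ b : k, (b ^ n = c ∧ b ^ Q = z * b) ↔ b = 0 := by
      intro b
      rw [h0]
      constructor
      · rintro ⟨h, -⟩
        exact pow_eq_zero_iff hn.ne_zero |>.mp h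
      · rintro rfl
        rw [zero_pow hn.ne_zero, zero_pow (by omega), mul_zero]
        exact ⟨rfl, rfl⟩
    simp only [this]
    exact Nat.card_unique
  · have hiff : ∀ b : k, (b ^ n = c ∧ b ^ Q = z * b) ↔ b ∈ (nthRoots n c).toFinset := by
      intro b
      rw [Multiset.mem_toFinset, mem_nthRoots hn.pos]
      refine ⟨fun h => h.1, fun h => ⟨h, ?_⟩⟩
      rw [hQe, pow_succ, pow_mul, h, h1]
    rw [Nat.card_congr (Equiv.subtypeEquivRight hiff), Nat.card_eq_fintype_card,
      Fintype.card_coe, Multiset.toFinset_card_of_nodup (hζ.nthRoots_nodup h0), hζ.card_nthRoots]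
    rw [if_pos (IsAlgClosed.exists_pow_nat_eq c hn.pos)]
  · rw [Nat.card_eq_zero]
    left
    refine ⟨fun ⟨b, hb1, hb2⟩ => h1 ?_⟩
    have hb : b ≠ 0 := by
      rintro rfl
      rw [zero_pow hn.ne_zero] at hb1
      exact h0 hb1.symm
    rw [hQe, pow_succ, pow_mul, hb1] at hb2
    exact mul_right_cancel₀ hb hb2

/-- the fixed elements are the elements of `K` -/
private theorem mem_range_of_pow {K : Type} [Field K] [Fintype K] (j : K →+* k) (a : k)
    (ha : a ^ Fintype.card K = a) : ∃ x, j x = a := by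
  classical
  have hq : 1 < Fintype.card K := Fintype.one_lt_card
  have hne : (X ^ Fintype.card K - X : k[X]) ≠ 0 := FiniteField.X_pow_card_sub_X_ne_zero k hq
  have hsub : Finset.univ.image j ⊆ (X ^ Fintype.card K - X : k[X]).roots.toFinset := by
    intro b hb
    obtain ⟨x, -, rfl⟩ := Finset.mem_image.mp hb
    rw [Multiset.mem_toFinset, mem_roots hne, IsRoot.def, eval_sub, eval_pow, eval_X, ← map_pow,
      FiniteField.pow_card, sub_self]
  have hcard : (X ^ Fintype.card K - X : k[X]).roots.toFinset.card ≤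
      (Finset.univ.image j).card := by
    rw [Finset.card_image_of_injective _ j.injective, Finset.card_univ]
    refine (Multiset.toFinset_card_le _).trans ((card_roots' _).trans ?_)
    rw [FiniteField.X_pow_card_sub_X_natDegree_eq k hq]
  have heq := Finset.eq_of_subset_of_card_le hsub hcard
  have hmem : a ∈ (X ^ Fintype.card K - X : k[X]).roots.toFinset := by
    rw [Multiset.mem_toFinset, mem_roots hne, IsRoot.def, eval_sub, eval_pow, eval_X, ha, sub_self]
  rw [← heq] at hmem
  obtain ⟨x, -, hx⟩ := Finset.mem_image.mp hmem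
  exact ⟨x, hx⟩

end

/-! ### The count -/

private theorem exists_prim (F : Type) [Field F] [Fintype F] (n : ℕ)
    (hd : n ∣ Fintype.card F - 1) : ∃ ζ : F, IsPrimitiveRoot ζ n := by
  obtain ⟨g, hg⟩ := IsCyclic.exists_ofOrder_eq_natCard (α := Fˣ)
  have hcard : Nat.card Fˣ = Fintype.card F - 1 := by
    rw [Nat.card_units, Nat.card_eq_fintype_card]
  have hq : 1 < Fintype.card F := Fintype.one_lt_card
  rw [hcard] at hg
  obtain ⟨m, hm⟩ := hd
  have hm0 : m ≠ 0 := by
    rintro rfl
    omega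
  have h1 : orderOf (g ^ m) = n := by
    rw [orderOf_pow_of_dvd hm0 ⟨n, by rw [hg, hm, mul_comm]⟩, hg, hm]
    exact Nat.mul_div_cancel _ (Nat.pos_of_ne_zero hm0)
  refine ⟨((g ^ m : Fˣ) : F), ?_⟩
  rw [IsPrimitiveRoot.coe_units_iff]
  have h2 := IsPrimitiveRoot.orderOf (g ^ m)
  rwa [h1] at h2

private theorem ncard_ZZ {F k K : Type} [Field F] [Field k] [IsAlgClosed k] [Algebra F k]
    [Field K] [Fintype K] [Algebra F K] [DecidableEq K] (j : K →ₐ[F] k) {n : ℕ} (hn : n.Prime)
    {ζ₀ : k} (hζ : IsPrimitiveRoot ζ₀ n) (hd : n ∣ Fintype.card K - 1) (f : F[X]) (ζ : F) :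
    (ZZ (f.map (algebraMap F k)) n (Fintype.card K) (algebraMap F k ζ)).ncard =
      ∑ x : K, if aeval x f = 0 then 1 else
        if (aeval x f) ^ ((Fintype.card K - 1) / n) = algebraMap F K ζ then n else 0 := by
  classical
  have hq : 1 < Fintype.card K := Fintype.one_lt_card
  have hev : ∀ x : K, (f.map (algebraMap F k)).eval (j x) = j (aeval x f) := by
    intro x
    rw [eval_map_algebraMap, aeval_algHom_apply]
  have hjz : j (algebraMap F K ζ) = algebraMap F k ζ := j.commutes ζ
  have hfib : ∀ x : K, Nat.card {b : k // b ^ n = j (aeval x f) ∧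
      b ^ Fintype.card K = algebraMap F k ζ * b} = if aeval x f = 0 then 1 else
        if (aeval x f) ^ ((Fintype.card K - 1) / n) = algebraMap F K ζ then n else 0 := by
    intro x
    rw [card_fib hn hζ _ hq hd]
    have e1 : (j (aeval x f) = 0) ↔ aeval x f = 0 := map_eq_zero_iff j j.injective
    have e2 : (j (aeval x f) ^ ((Fintype.card K - 1) / n) = algebraMap F k ζ) ↔
        (aeval x f) ^ ((Fintype.card K - 1) / n) = algebraMap F K ζ := by
      rw [← hjz, ← map_pow]
      exact j.injective.eq_iff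
    simp only [e1, e2]
  have hfinb : ∀ x : K, Finite {b : k // b ^ n = j (aeval x f) ∧
      b ^ Fintype.card K = algebraMap F k ζ * b} := by
    intro x
    have h1 : {b : k | b ^ n = j (aeval x f)}.Finite := by
      refine ((nthRoots n (j (aeval x f))).toFinset.finite_toSet).subset fun b hb => ?_
      rw [Finset.mem_coe, Multiset.mem_toFinset, mem_nthRoots hn.pos]
      exact hb
    exact (h1.subset fun b hb => hb.1).to_subtype
  let T : (Σ x : K, {b : k // b ^ n = j (aeval x f) ∧
      b ^ Fintype.card K = algebraMap F k ζ * b}) →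
      ZZ (f.map (algebraMap F k)) n (Fintype.card K) (algebraMap F k ζ) :=
    fun p => ⟨(j p.1, p.2.1), by
      refine ⟨?_, ?_, p.2.2.2⟩
      · rw [hev]
        exact p.2.2.1
      · change j p.1 ^ Fintype.card K = j p.1
        rw [← map_pow, FiniteField.pow_card]⟩
  have hT : Function.Bijective T := by
    constructor
    · rintro ⟨x, b, hb⟩ ⟨x', b', hb'⟩ h
      have h1 := congrArg Subtype.val h
      obtain ⟨h2, h3⟩ := Prod.mk.inj h1
      have h4 : x = x' := j.injective h2
      subst h4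
      have h5 : b = b' := h3
      subst h5
      rfl
    · rintro ⟨⟨a, b⟩, h1, h2, h3⟩
      obtain ⟨x, hx⟩ := mem_range_of_pow (j : K →+* k) a h2
      have hx' : j x = a := hx
      subst hx'
      refine ⟨⟨x, b, ?_, h3⟩, rfl⟩
      rw [← hev]
      exact h1
  rw [← Nat.card_coe_set_eq, ← Nat.card_congr (Equiv.ofBijective T hT), Nat.card_sigma]
  exact Finset.sum_congr rfl fun x _ => hfib x

private theorem final {F k K : Type} [Field F] [Fintype F] [Field k] [IsAlgClosed k] [Algebra F k]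
    [Field K] [Fintype K] [Algebra F K] [DecidableEq K] (j : K →ₐ[F] k) {n : ℕ} (hn : n.Prime)
    {ζ₀ : k} (hζ : IsPrimitiveRoot ζ₀ n) (hd : n ∣ Fintype.card K - 1) (f : F[X]) (hf : f ≠ 0)
    [Fintype (rootsOfUnity n F)] (u : rootsOfUnity n F) (e : ℕ)
    (hQ : Fintype.card K = Fintype.card F ^ e) (C₀ : ℝ)
    (hb : |((Pts F (om k n (f.map (algebraMap F k)) hn.ne_zero)
      (ac F k n (f.map (algebraMap F k))) u e).ncard : ℝ) - (Fintype.card F : ℝ) ^ e| ≤
      C₀ * (f.natDegree + 1) * √((Fintype.card F : ℝ) ^ e)) :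
    |((Finset.univ.filter (fun x : K =>
        (aeval x f) ^ ((Fintype.card K - 1) / n) = algebraMap F K ((u : Fˣ) : F))).card : ℝ) -
      (Fintype.card K : ℝ) / n| ≤ (C₀ * (f.natDegree + 1) + f.natDegree) *
        √(Fintype.card K) := by
  have himg := pts_image (k := k) (f.map (algebraMap F k)) hn u e
  have hinj : Set.InjOn (fun y : RR k n (f.map (algebraMap F k)) →ₐ[k] k =>
      ((y (algebraMap k[X] (RR k n (f.map (algebraMap F k))) X),
        y (yy k n (f.map (algebraMap F k)))) : k × k))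
      (Pts F (om k n (f.map (algebraMap F k)) hn.ne_zero)
        (ac F k n (f.map (algebraMap F k))) u e) := by
    intro y₁ _ y₂ _ h
    obtain ⟨h1, h2⟩ := Prod.mk.inj h
    exact hom_ext' hn.ne_zero h1 h2
  have hncard := hinj.ncard_image
  rw [himg, ← hQ, ncard_ZZ j hn hζ hd f] at hncard
  have hQR : (Fintype.card F : ℝ) ^ e = Fintype.card K := by rw [hQ]; push_cast; rfl
  rw [← hncard, hQR] at hb
  set S := Finset.univ.filter (fun x : K =>
        (aeval x f) ^ ((Fintype.card K - 1) / n) = algebraMap F K ((u : Fˣ) : F)) with hS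
  set Z := Finset.univ.filter (fun x : K => aeval x f = 0) with hZ
  have hq : 1 < Fintype.card K := Fintype.one_lt_card
  have hu0 : algebraMap F K ((u : Fˣ) : F) ≠ 0 := by
    rw [Ne, map_eq_zero_iff _ (algebraMap F K).injective]
    exact (u : Fˣ).ne_zero
  have hexp : (Fintype.card K - 1) / n ≠ 0 := by
    have : n ≤ Fintype.card K - 1 := Nat.le_of_dvd (by omega) hd
    exact (Nat.div_pos this hn.pos).ne'
  have hsum : (∑ x : K, if aeval x f = 0 then 1 else
      if (aeval x f) ^ ((Fintype.card K - 1) / n) = algebraMap F K ((u : Fˣ) : F) then n else 0) =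
      Z.card + n * S.card := by
    rw [Finset.card_filter, Finset.card_filter, Finset.mul_sum, ← Finset.sum_add_distrib]
    refine Finset.sum_congr rfl fun x _ => ?_
    by_cases h0 : aeval x f = 0
    · rw [if_pos h0, if_pos h0, h0, zero_pow hexp, if_neg hu0.symm, mul_zero, add_zero]
    · rw [if_neg h0, if_neg h0, zero_add, mul_ite, mul_one, mul_zero]
  have hZc : Z.card ≤ f.natDegree := by
    have hne : f.map (algebraMap F K) ≠ 0 := (Polynomial.map_ne_zero_iff
      (algebraMap F K).injective).mpr hf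
    have hsub : Z ⊆ (f.map (algebraMap F K)).roots.toFinset := by
      intro x hx
      rw [Multiset.mem_toFinset, mem_roots hne, IsRoot.def, eval_map_algebraMap]
      exact (Finset.mem_filter.mp hx).2
    refine (Finset.card_le_card hsub).trans ((Multiset.toFinset_card_le _).trans
      ((card_roots' _).trans ?_))
    rw [natDegree_map]
  rw [hsum] at hb
  push_cast at hb
  have hn1 : (1 : ℝ) ≤ n := by exact_mod_cast hn.one_lt.le
  have hZR : (Z.card : ℝ) ≤ f.natDegree := by exact_mod_cast hZc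
  have hsq : 1 ≤ √(Fintype.card K : ℝ) := by
    rw [Real.one_le_sqrt]
    exact_mod_cast hq.le
  have hd0 : (0 : ℝ) ≤ f.natDegree := Nat.cast_nonneg _
  have h1 : |(n : ℝ) * ((S.card : ℝ) - (Fintype.card K : ℝ) / n)| ≤
      (C₀ * (f.natDegree + 1) + f.natDegree) * √(Fintype.card K) := by
    have h2 : (n : ℝ) * ((S.card : ℝ) - (Fintype.card K : ℝ) / n) =
        ((Z.card : ℝ) + n * S.card - Fintype.card K) - Z.card := by
      field_simp
      ring
    rw [h2]
    refine (abs_sub _ _).trans ?_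
    rw [Nat.abs_cast]
    have h3 : (f.natDegree : ℝ) ≤ f.natDegree * √(Fintype.card K : ℝ) :=
      le_mul_of_one_le_right hd0 hsq
    linarith
  rw [abs_mul, Nat.abs_cast] at h1
  exact (le_mul_of_one_le_left (abs_nonneg _) hn1).trans h1

theorem hE4 : StCh → StE4 := by
  intro hCh F _ _ n f hn hd hf hNP
  classical
  obtain ⟨ζ₁, hζ₁⟩ := exists_prim F n hd
  have : NeZero n := ⟨hn.ne_zero⟩
  have hΓ : Fintype.card (rootsOfUnity n F) = n := by
    rw [← Nat.card_eq_fintype_card]
    exact hζ₁.card_rootsOfUnity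
  obtain ⟨C₀, -, hmain⟩ := hCh F n
  have hirr := irr F (AlgebraicClosure F) n hn f hNP
  have hdom : IsDomain (RR (AlgebraicClosure F) n (f.map (algebraMap F (AlgebraicClosure F)))) :=
    AdjoinRoot.isDomain_of_prime hirr.prime
  have hdat := dat (F := F) (k := AlgebraicClosure F) f hn hΓ
  refine ⟨C₀ * (f.natDegree + 1) + f.natDegree, ?_⟩
  intro K _ _ _ ζ hζ
  have hfinK : Module.Finite F K := Module.Finite.of_finite
  set e := Module.finrank F K with he
  have he1 : 1 ≤ e := Module.finrank_pos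
  have hQ : Fintype.card K = Fintype.card F ^ e := Module.card_eq_pow_finrank
  have hdK : n ∣ Fintype.card K - 1 := by
    rw [hQ]
    exact hd.trans (by simpa using Nat.sub_dvd_pow_sub_pow (Fintype.card F) 1 e)
  let j : K →ₐ[F] AlgebraicClosure F := IsAlgClosed.lift
  have hu0 : ζ ≠ 0 := by
    rintro rfl
    rw [zero_pow hn.ne_zero] at hζ
    exact zero_ne_one hζ
  have hux : (Units.mk0 ζ hu0) ∈ rootsOfUnity n F := by
    rw [mem_rootsOfUnity]
    exact Units.ext hζ
  obtain ⟨-, hbound⟩ := hmain (AlgebraicClosure F) _ _ _ _ _ f.natDegree hdat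
    (Fintype.card_fin n) ⟨Units.mk0 ζ hu0, hux⟩ e he1
  have hζk : IsPrimitiveRoot (algebraMap F (AlgebraicClosure F) ζ₁) n :=
    hζ₁.map_of_injective (algebraMap F (AlgebraicClosure F)).injective
  have h := final j hn hζk hdK f hf ⟨Units.mk0 ζ hu0, hux⟩ e hQ C₀ hbound
  convert h using 4
  refine congrArg Finset.card (Finset.ext fun x => ?_)
  rw [Finset.mem_filter, Finset.mem_filter]
  exact Iff.rfl

end

end Pool.Agent.Helper83.SE
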