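import Pool.Agent.Helper96.SE.St

/-! Module O2 of project SE (MP_6090f9_nt): the number of roots has mean one. -/

set_option autoImplicit false

namespace Pool.Agent.Helper83.SE

open NumberField IsDedekindDomain Polynomial Filter Topology
open Pool.Agent.Helper96.SE Pool.Agent.Helper96.BC Pool.Agent.Helper95.TT Pool.Agent.Helper24.TF
open Pool.Agent.Helper95.WS

private theorem q_ne_zero {k : Type} [Field k] [NumberField k] (v : Pr k) : (q v : ℝ) ≠ 0 := by
  have : Finite (𝓞 k ⧸ v.asIdeal) := Ideal.finiteQuotientOfFreeOfNeBot _ v.ne_bot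
  have h1 : q v = Nat.card (𝓞 k ⧸ v.asIdeal) := rfl
  rw [h1]
  exact_mod_cast Nat.card_pos.ne'

private theorem wt_cont {k : Type} [Field k] [NumberField k] (v : Pr k) :
    Continuous (fun s : ℝ => wt s v) := by
  unfold wt
  exact continuous_const.mul ((Real.continuous_const_rpow (q_ne_zero v)).comp continuous_neg)

/-- a number field generated by a root -/
private theorem exists_field (k : Type) [Field k] [NumberField k] (h : (𝓞 k)[X]) (hm : h.Monic)
    (hi : Irreducible (h.map (algebraMap (𝓞 k) k))) :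
    ∃ (K : Type) (_ : Field K) (_ : NumberField K) (_ : Algebra k K) (θ : 𝓞 K),
      aeval θ h = 0 ∧ Algebra.adjoin k {(θ : K)} = ⊤ := by
  have : Fact (Irreducible (h.map (algebraMap (𝓞 k) k))) := ⟨hi⟩
  have hfin : FiniteDimensional k (AdjoinRoot (h.map (algebraMap (𝓞 k) k))) :=
    (AdjoinRoot.powerBasis hi.ne_zero).finite
  have hNF : NumberField (AdjoinRoot (h.map (algebraMap (𝓞 k) k))) :=
    NumberField.of_module_finite k _
  have hroot : aeval (AdjoinRoot.root (h.map (algebraMap (𝓞 k) k))) h = 0 := by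
    have h1 := AdjoinRoot.eval₂_root (h.map (algebraMap (𝓞 k) k))
    rw [eval₂_map] at h1
    rw [aeval_def, IsScalarTower.algebraMap_eq (𝓞 k) k
      (AdjoinRoot (h.map (algebraMap (𝓞 k) k)))]
    exact h1
  have hint : IsIntegral (𝓞 k) (AdjoinRoot.root (h.map (algebraMap (𝓞 k) k))) := ⟨h, hm, hroot⟩
  obtain ⟨θ, hθ⟩ := (IsIntegralClosure.isIntegral_iff (R := 𝓞 k)
    (A := 𝓞 (AdjoinRoot (h.map (algebraMap (𝓞 k) k))))).mp hint
  refine ⟨AdjoinRoot (h.map (algebraMap (𝓞 k) k)), inferInstance, hNF, inferInstance, θ, ?_, ?_⟩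
  · apply IsFractionRing.injective (𝓞 (AdjoinRoot (h.map (algebraMap (𝓞 k) k))))
      (AdjoinRoot (h.map (algebraMap (𝓞 k) k)))
    rw [map_zero, ← aeval_algebraMap_apply, hθ, hroot]
  · have h2 : ((θ : 𝓞 (AdjoinRoot (h.map (algebraMap (𝓞 k) k)))) :
        AdjoinRoot (h.map (algebraMap (𝓞 k) k))) = AdjoinRoot.root _ := hθ
    rw [h2]
    exact AdjoinRoot.adjoinRoot_eq_top

theorem hO2 : StA2 → StC2 → StC3 → StC6 → StO1 → StO2 := by
  intro hA2 hC2 hC3 hC6 hO1 k _ _ h hm hi
  obtain ⟨K, _, _, _, θ, hθ, htop⟩ := exists_field k h hm hi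
  have hF := hO1 k K θ h hm hi hθ htop
  have hcard : ∀ v : Pr k, N1 K v = Nat.card (𝓞 K →ₐ[𝓞 k] (𝓞 k ⧸ v.asIdeal)) := by
    intro v
    obtain ⟨e, -⟩ := hC3 k K v
    exact Nat.card_congr e
  set T : Finset (Pr k) := hF.toFinset with hT
  have hout : ∀ v, v ∉ T → Rt h v = N1 K v := by
    intro v hv
    rw [hT, Set.Finite.mem_toFinset] at hv
    rw [hcard]
    by_contra hne
    exact hv (Ne.symm hne)
  have hN : ∀ v : Pr k, N1 K v ≤ Module.finrank k K := fun v =>
    ((hC2 k K (fun _ => 0) 0 (fun w => by simp)).1 v).2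
  have hlim := (hC6 k K).1
  have hsN : ∀ s : ℝ, 1 < s → Summable (fun v : Pr k => (N1 K v : ℝ) * wt s v) := by
    intro s hs
    refine Summable.of_norm_bounded (g := fun v => (Module.finrank k K : ℝ) * ‖wt s v‖)
      (((hA2 k).1 s hs).norm.mul_left _) fun v => ?_
    rw [norm_mul, Real.norm_natCast]
    exact mul_le_mul_of_nonneg_right (by exact_mod_cast hN v) (norm_nonneg _)
  have hsum : ∀ s : ℝ, 1 < s → ∑' v : Pr k, (Rt h v : ℝ) * wt s v =
      ∑' v : Pr k, (N1 K v : ℝ) * wt s v + ∑ v ∈ T, ((Rt h v : ℝ) - N1 K v) * wt s v := by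
    intro s hs
    have h1 : ∀ v, v ∉ T → ((Rt h v : ℝ) - N1 K v) * wt s v = 0 := by
      intro v hv
      rw [hout v hv, sub_self, zero_mul]
    have h2 : Summable (fun v : Pr k => ((Rt h v : ℝ) - N1 K v) * wt s v) :=
      summable_of_ne_finset_zero h1
    have h3 : ∑' v : Pr k, ((Rt h v : ℝ) - N1 K v) * wt s v =
        ∑ v ∈ T, ((Rt h v : ℝ) - N1 K v) * wt s v := tsum_eq_sum h1
    rw [← h3, ← (hsN s hs).tsum_add h2]
    exact tsum_congr fun v => by ring
  have hfin : Tendsto (fun s : ℝ => (s - 1) * ∑ v ∈ T, ((Rt h v : ℝ) - N1 K v) * wt s v)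
      (𝓝[>] 1) (𝓝 0) := by
    have hc : Continuous (fun s : ℝ => (s - 1) * ∑ v ∈ T, ((Rt h v : ℝ) - N1 K v) * wt s v) := by
      refine (continuous_id.sub continuous_const).mul (continuous_finsetSum _ fun v _ => ?_)
      exact continuous_const.mul (wt_cont v)
    have h1 := (hc.tendsto 1).mono_left (nhdsWithin_le_nhds (s := Set.Ioi 1))
    simpa using h1
  have hadd := hlim.add hfin
  rw [add_zero] at hadd
  refine hadd.congr' ?_
  filter_upwards [self_mem_nhdsWithin] with s hs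
  rw [hsum s hs, mul_add]

end Pool.Agent.Helper83.SE
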